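import Pool.Agent.H98.TO.Stmt

/-! `TA`: averaging over the translates. -/

set_option autoImplicit false

namespace Pool.Agent.H98.TO

open Finset MeasureTheory
open scoped Pointwise

namespace TAL

theorem vol (d : ℕ) (A : Set (T d)) (v : T d) :
    volume ((fun x : T d => x + v) ⁻¹' A) = volume A :=
  measure_preimage_add_right volume v A

theorem prob : IsProbabilityMeasure (volume : Measure UnitAddCircle) :=
  ⟨UnitAddCircle.measure_univ⟩

end TAL

theorem ta : TA := by
  intro d q _ A hA
  classical
  have hm : ∀ g : Fin d → ZMod q, MeasurableSet ((fun x : T d => x + io d q g) ⁻¹' A) :=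
    fun g => (measurable_add_const _) hA
  set f : T d → ℝ := fun x => ∑ g : Fin d → ZMod q,
    ((fun x : T d => x + io d q g) ⁻¹' A).indicator (fun _ => (1 : ℝ)) x with hf
  have hint : ∀ g : Fin d → ZMod q, Integrable
      (((fun x : T d => x + io d q g) ⁻¹' A).indicator (fun _ => (1 : ℝ))) volume :=
    fun g => (integrable_const (1 : ℝ)).indicator (hm g)
  have hfi : Integrable f volume := integrable_finsetSum _ (fun g _ => hint g)
  have hI : ∫ x, f x = (q : ℝ) ^ d * (volume A).toReal := by
    rw [hf, integral_finsetSum _ (fun g _ => hint g)]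
    have h1 : ∀ g : Fin d → ZMod q, ∫ x, ((fun x : T d => x + io d q g) ⁻¹' A).indicator
        (fun _ => (1 : ℝ)) x = (volume A).toReal := by
      intro g
      rw [integral_indicator_const (1 : ℝ) (hm g), measureReal_def, TAL.vol]
      simp
    rw [Finset.sum_congr rfl (fun g _ => h1 g), Finset.sum_const, Finset.card_univ, Fintype.card_fun,
      ZMod.card, Fintype.card_fin, nsmul_eq_mul]
    push_cast
    rfl
  have := TAL.prob
  obtain ⟨x, hx⟩ := exists_integral_le hfi
  refine ⟨x, ?_⟩
  rw [hI] at hx
  have h2 : f x = ({g : Fin d → ZMod q | x + io d q g ∈ A}.ncard : ℝ) := by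
    rw [Set.ncard_eq_toFinset_card', Finset.card_eq_sum_ones, hf]
    push_cast
    rw [← Finset.sum_filter_add_sum_filter_not Finset.univ (fun g => x + io d q g ∈ A)]
    have h3 : ∑ g ∈ Finset.univ.filter (fun g : Fin d → ZMod q => ¬ x + io d q g ∈ A),
        ((fun x : T d => x + io d q g) ⁻¹' A).indicator (fun _ => (1 : ℝ)) x = 0 := by
      apply Finset.sum_eq_zero
      intro g hg
      have hg2 : x ∉ ((fun x : T d => x + io d q g) ⁻¹' A) := (Finset.mem_filter.mp hg).2
      exact Set.indicator_of_notMem hg2 _
    rw [h3, add_zero]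
    have h4 : (Finset.univ.filter (fun g : Fin d → ZMod q => x + io d q g ∈ A)) =
        {g : Fin d → ZMod q | x + io d q g ∈ A}.toFinset := by
      ext g
      simp
    rw [h4]
    apply Finset.sum_congr rfl
    intro g hg
    have hg1 : g ∈ {g : Fin d → ZMod q | x + io d q g ∈ A} := Set.mem_toFinset.mp hg
    have hg2 : x ∈ ((fun x : T d => x + io d q g) ⁻¹' A) := hg1
    exact Set.indicator_of_mem hg2 _
  rw [← h2, mul_comm]
  exact hx

end Pool.Agent.H98.TO
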