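import Pool.Agent.H98.TO.Stmt

/-!
# TO-TC: points killed by the short vectors that kill a finite subgroup (written by helper800)
-/

set_option autoImplicit false

open Finset Filter Topology

namespace Pool.Agent.H98.TO

namespace TCL

/-- the character -/
noncomputable def e (y : UnitAddCircle) : ℂ := ((AddCircle.toCircle y : Circle) : ℂ)

theorem e_add (x y : UnitAddCircle) : e (x + y) = e x * e y := by
  unfold e
  rw [AddCircle.toCircle_add, Circle.coe_mul]

theorem e_zero : e 0 = 1 := by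
  unfold e
  rw [AddCircle.toCircle_zero, Circle.coe_one]

theorem e_neg (y : UnitAddCircle) : e (-y) = (starRingEnd ℂ) (e y) := by
  unfold e
  rw [AddCircle.toCircle_neg, Circle.coe_inv_eq_conj]

theorem e_norm (y : UnitAddCircle) : ‖e y‖ = 1 := Circle.norm_coe _

theorem e_ne (y : UnitAddCircle) : e y ≠ 0 := by
  intro h
  have := e_norm y
  rw [h, norm_zero] at this
  exact zero_ne_one this

theorem e_mul_neg (y : UnitAddCircle) : e y * e (-y) = 1 := by
  rw [← e_add, add_neg_cancel, e_zero]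

theorem e_zsmul (n : ℤ) (y : UnitAddCircle) : e (n • y) = e y ^ n := by
  unfold e
  rw [AddCircle.toCircle_zsmul, Circle.coe_zpow]

theorem e_inj {y : UnitAddCircle} (h : e y = 1) : y = 0 := by
  have h1 : AddCircle.toCircle y = AddCircle.toCircle (0 : UnitAddCircle) := by
    apply Circle.ext
    have h2 : ((AddCircle.toCircle (0 : UnitAddCircle) : Circle) : ℂ) = 1 := e_zero
    rw [h2]
    exact h
  exact AddCircle.injective_toCircle one_ne_zero h1

theorem e_sum {ι : Type*} (s : Finset ι) (f : ι → UnitAddCircle) :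
    e (∑ i ∈ s, f i) = ∏ i ∈ s, e (f i) := by
  classical
  induction s using Finset.induction_on with
  | empty => simp [e_zero]
  | insert a s ha ih => rw [sum_insert ha, prod_insert ha, e_add, ih]

theorem e_cont : Continuous e := continuous_subtype_val.comp AddCircle.continuous_toCircle

/-- `|1 + e(y)|^2` -/
noncomputable def u (y : UnitAddCircle) : ℝ := 2 + 2 * (e y).re

theorem u_eq (y : UnitAddCircle) : ((u y : ℝ) : ℂ) = (1 + e y) * (1 + e (-y)) := by
  have h1 := e_mul_neg y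
  have h2 : e y + e (-y) = ((2 * (e y).re : ℝ) : ℂ) := by
    rw [e_neg, Complex.add_conj]
  have h3 : (1 + e y) * (1 + e (-y)) = 1 + (e y + e (-y)) + e y * e (-y) := by ring
  rw [h3, h1, h2]
  unfold u
  push_cast
  ring

theorem re_le (y : UnitAddCircle) : |(e y).re| ≤ 1 := (Complex.abs_re_le_norm _).trans (e_norm y).le

theorem u_nonneg (y : UnitAddCircle) : 0 ≤ u y := by
  have := (abs_le.mp (re_le y)).1
  unfold u
  linarith

theorem u_le (y : UnitAddCircle) : u y ≤ 4 := by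
  have := (abs_le.mp (re_le y)).2
  unfold u
  linarith

theorem u_lt {y : UnitAddCircle} (hy : y ≠ 0) : u y < 4 := by
  refine lt_of_le_of_ne (u_le y) fun h => hy (e_inj ?_)
  have h1 : (e y).re = 1 := by
    unfold u at h
    linarith
  have h2 : (e y).re ^ 2 + (e y).im ^ 2 = 1 := by
    have h3 : Complex.normSq (e y) = 1 := by
      rw [Complex.normSq_eq_norm_sq, e_norm]
      norm_num
    rw [Complex.normSq_apply] at h3
    nlinarith
  have h4 : (e y).im = 0 := by
    rw [h1] at h2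
    have : (e y).im ^ 2 = 0 := by linarith
    exact pow_eq_zero_iff (two_ne_zero) |>.mp this
  exact Complex.ext h1 h4

theorem u_cont : Continuous u := by
  unfold u
  exact continuous_const.add (continuous_const.mul (Complex.continuous_re.comp e_cont))

theorem u_gap {η : ℝ} (hη : 0 < η) : ∃ ρ : ℝ, 0 ≤ ρ ∧ ρ < 1 ∧
    ∀ y : UnitAddCircle, η ≤ ‖y‖ → u y ≤ 4 * ρ := by
  have hK : IsCompact {y : UnitAddCircle | η ≤ ‖y‖} :=
    (isClosed_le continuous_const continuous_norm).isCompact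
  obtain ⟨a, ha, h⟩ := hK.exists_forall_le' (f := fun y => 4 - u y)
    (continuous_const.sub u_cont).continuousOn (a := 0) fun y hy => by
      have h1 : y ≠ 0 := by
        rintro rfl
        have h2 : η ≤ ‖(0 : UnitAddCircle)‖ := hy
        rw [norm_zero] at h2
        linarith
      have := u_lt h1
      show 0 < 4 - u y
      linarith
  refine ⟨max (1 - a / 4) 0, le_max_right _ _, max_lt (by linarith) one_pos, fun y hy => ?_⟩
  have h1 : a ≤ 4 - u y := h y hy
  have h2 := le_max_left (1 - a / 4) 0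
  linarith

/-- the expansion of the kernel in one variable -/
theorem u_pow (M : ℕ) (y : UnitAddCircle) : ((u y : ℝ) : ℂ) ^ M =
    ∑ j ∈ range (2 * M + 1), ((2 * M).choose j : ℂ) * e (((j : ℤ) - M) • y) := by
  have h1 : (1 + e (-y)) = e (-y) * (e y + 1) := by
    rw [mul_add, mul_one, mul_comm, e_mul_neg]
  have h2 : ((u y : ℝ) : ℂ) ^ M = e (-y) ^ M * (e y + 1) ^ (2 * M) := by
    rw [u_eq, h1, mul_pow, mul_pow, two_mul M, pow_add, add_comm 1 (e y)]
    ring
  rw [h2, add_pow, mul_sum]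
  refine sum_congr rfl fun j _ => ?_
  have h3 : e (((j : ℤ) - M) • y) = e (-y) ^ M * e y ^ j := by
    rw [e_zsmul, zpow_sub₀ (e_ne y), zpow_natCast, zpow_natCast]
    have h4 : e (-y) = (e y)⁻¹ := (eq_inv_of_mul_eq_one_right (e_mul_neg y))
    rw [h4, inv_pow, div_eq_mul_inv, mul_comm]
  rw [h3, one_pow, mul_one]
  ring

theorem pt_add {d : ℕ} (k : Fin d → ℤ) (x y : T d) : pt k (x + y) = pt k x + pt k y := by
  unfold pt
  rw [← sum_add_distrib]
  exact sum_congr rfl fun i _ => by rw [Pi.add_apply, zsmul_add]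

theorem pt_zero {d : ℕ} (k : Fin d → ℤ) : pt k (0 : T d) = 0 := by
  unfold pt
  exact sum_eq_zero fun i _ => by rw [Pi.zero_apply, zsmul_zero]

theorem pt_sub {d : ℕ} (k : Fin d → ℤ) (x y : T d) : pt k (x - y) = pt k x + pt k (-y) := by
  rw [sub_eq_add_neg, pt_add]

theorem pt_neg {d : ℕ} (k : Fin d → ℤ) (x : T d) : pt k (-x) = -pt k x := by
  have h := pt_add k x (-x)
  rw [add_neg_cancel, pt_zero] at h
  exact (neg_eq_of_add_eq_zero_right h.symm).symm

/-- the kernel -/
noncomputable def Fr {d : ℕ} (M : ℕ) (y : T d) : ℝ := ∏ i, u (y i) ^ M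

/-- the frequencies -/
def kf {d : ℕ} (M : ℕ) (f : Fin d → ℕ) : Fin d → ℤ := fun i => (f i : ℤ) - M

/-- the coefficients -/
def cf {d : ℕ} (M : ℕ) (f : Fin d → ℕ) : ℕ := ∏ i, (2 * M).choose (f i)

theorem Fr_eq {d : ℕ} (M : ℕ) (y : T d) : ((Fr M y : ℝ) : ℂ) =
    ∑ f ∈ Fintype.piFinset (fun _ : Fin d => range (2 * M + 1)),
      (cf M f : ℂ) * e (pt (kf M f) y) := by
  unfold Fr
  push_cast
  have h : ∀ i : Fin d, ((u (y i) : ℝ) : ℂ) ^ M =
      ∑ j ∈ range (2 * M + 1), ((2 * M).choose j : ℂ) * e (((j : ℤ) - M) • y i) :=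
    fun i => u_pow M (y i)
  rw [prod_congr rfl fun i _ => h i, prod_univ_sum]
  refine sum_congr rfl fun f _ => ?_
  rw [prod_mul_distrib]
  unfold cf pt kf
  rw [e_sum]
  push_cast
  rfl

/-- character sums over a finite subgroup -/
theorem char_sum {d : ℕ} (k : Fin d → ℤ) (H : AddSubgroup (T d)) (hH : (H : Set (T d)).Finite)
    (h0 : T d) (hh : h0 ∈ H) (hne : pt k h0 ≠ 0) : ∑ h ∈ hH.toFinset, e (pt k h) = 0 := by
  have h1 : ∑ h ∈ hH.toFinset, e (pt k h) = ∑ h ∈ hH.toFinset, e (pt k h) * (e (pt k h0))⁻¹ := by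
    refine sum_equiv (Equiv.addRight h0) (fun i => ?_) fun i _ => ?_
    · simp only [Set.Finite.mem_toFinset, SetLike.mem_coe, Equiv.coe_addRight]
      exact ⟨fun h => H.add_mem h hh, fun h => by
        have := H.sub_mem h hh
        rwa [add_sub_cancel_right] at this⟩
    · simp only [Equiv.coe_addRight]
      rw [pt_add, e_add, mul_assoc, mul_inv_cancel₀ (e_ne _), mul_one]
  rw [← sum_mul] at h1
  have h2 : (e (pt k h0))⁻¹ ≠ 1 := fun h => hne (e_inj (inv_eq_one.mp h))
  by_contra hS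
  exact h2 (mul_left_cancel₀ hS (h1.symm.trans (mul_one _).symm))

/-- the lower bound of the average -/
theorem avg {d : ℕ} (M : ℕ) (H : AddSubgroup (T d)) (hH : (H : Set (T d)).Finite) (x : T d)
    (hx : ∀ k : Fin d → ℤ, (∀ i, |k i| ≤ M) → (∀ h ∈ H, pt k h = 0) → pt k x = 0) :
    ∃ h ∈ H, ((Nat.centralBinom M : ℝ)) ^ d ≤ Fr M (h - x) := by
  classical
  have hne : hH.toFinset.Nonempty := ⟨0, by
    rw [Set.Finite.mem_toFinset]
    exact H.zero_mem⟩
  have key : ∑ h ∈ hH.toFinset, ((Nat.centralBinom M : ℝ)) ^ d ≤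
      ∑ h ∈ hH.toFinset, Fr M (h - x) := by
    set I := Fintype.piFinset (fun _ : Fin d => range (2 * M + 1)) with hI
    -- exact value
    have h1 : (((∑ h ∈ hH.toFinset, Fr M (h - x) : ℝ)) : ℂ) =
        ∑ f ∈ I, (cf M f : ℂ) * (if ∀ h ∈ H, pt (kf M f) h = 0 then
          (hH.toFinset.card : ℂ) else 0) := by
      push_cast
      rw [sum_congr rfl fun h _ => Fr_eq M (h - x), sum_comm]
      refine sum_congr rfl fun f hf => ?_
      rw [← mul_sum]
      congr 1
      have h2 : ∀ h : T d, e (pt (kf M f) (h - x)) = e (pt (kf M f) h) * e (pt (kf M f) (-x)) := by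
        intro h
        rw [pt_sub, e_add]
      rw [sum_congr rfl fun h _ => h2 h, ← sum_mul]
      split_ifs with hz
      · have hk : ∀ i, |kf M f i| ≤ (M : ℤ) := by
          intro i
          have h3 := (Fintype.mem_piFinset.mp hf) i
          rw [mem_range] at h3
          unfold kf
          rw [abs_le]
          constructor <;> omega
        have h4 : pt (kf M f) (-x) = 0 := by
          rw [pt_neg, hx _ hk hz, neg_zero]
        rw [h4, e_zero, mul_one]
        have h5 : ∀ h ∈ hH.toFinset, e (pt (kf M f) h) = 1 := by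
          intro h hh
          rw [hz h (by
            rw [Set.Finite.mem_toFinset] at hh
            exact hh), e_zero]
        rw [sum_congr rfl h5, sum_const, nsmul_eq_mul, mul_one]
      · push Not at hz
        obtain ⟨h0, hh0, hne0⟩ := hz
        rw [char_sum (kf M f) H hH h0 hh0 hne0, zero_mul]
    have h6 : (∑ h ∈ hH.toFinset, Fr M (h - x) : ℝ) =
        ∑ f ∈ I, (cf M f : ℝ) * (if ∀ h ∈ H, pt (kf M f) h = 0 then
          (hH.toFinset.card : ℝ) else 0) := by
      apply Complex.ofReal_injective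
      rw [h1]
      push_cast
      refine sum_congr rfl fun f _ => ?_
      split_ifs <;> simp
    rw [h6]
    have hmem : (fun _ : Fin d => M) ∈ I := by
      rw [hI, Fintype.mem_piFinset]
      intro i
      rw [mem_range]
      omega
    have hkz : kf (d := d) M (fun _ => M) = 0 := by
      funext i
      unfold kf
      simp
    have h7 : ((cf (d := d) M (fun _ => M) : ℝ)) * (if ∀ h ∈ H, pt (kf M (fun _ => M)) h = 0 then
          (hH.toFinset.card : ℝ) else 0) ≤
        ∑ f ∈ I, (cf M f : ℝ) * (if ∀ h ∈ H, pt (kf M f) h = 0 then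
          (hH.toFinset.card : ℝ) else 0) := by
      refine single_le_sum (f := fun f : Fin d → ℕ => (cf M f : ℝ) *
        (if ∀ h ∈ H, pt (kf M f) h = 0 then (hH.toFinset.card : ℝ) else 0)) (fun f _ => ?_) hmem
      refine mul_nonneg (Nat.cast_nonneg _) ?_
      split_ifs
      · exact Nat.cast_nonneg _
      · exact le_rfl
    refine le_trans (le_of_eq ?_) h7
    have h8 : ∀ h ∈ H, pt (kf M (fun _ : Fin d => M)) h = 0 := by
      intro h _
      rw [hkz]
      unfold pt
      exact sum_eq_zero fun i _ => by rw [Pi.zero_apply, zero_smul]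
    rw [if_pos h8, sum_const, nsmul_eq_mul, mul_comm]
    congr 1
    unfold cf
    rw [prod_const, card_univ, Fintype.card_fin, Nat.cast_pow]
    rfl
  obtain ⟨h, hh, h2⟩ := exists_le_of_sum_le hne key
  exact ⟨h, by
    rw [Set.Finite.mem_toFinset] at hh
    exact hh, h2⟩

/-- the upper bound of the kernel if one coordinate is not small -/
theorem Fr_le {d : ℕ} (M : ℕ) {η ρ : ℝ} (hρ : 0 ≤ ρ)
    (h : ∀ y : UnitAddCircle, η ≤ ‖y‖ → u y ≤ 4 * ρ) (y : T d) (i : Fin d) (hi : η ≤ ‖y i‖) :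
    Fr M y ≤ ρ ^ M * (4 ^ M) ^ d := by
  classical
  have h1 : Fr M y ≤ ∏ j : Fin d, ((if j = i then ρ ^ M else 1) * 4 ^ M) := by
    unfold Fr
    refine prod_le_prod (fun j _ => pow_nonneg (u_nonneg _) _) fun j _ => ?_
    split_ifs with hj
    · subst hj
      rw [← mul_pow, mul_comm]
      exact pow_le_pow_left₀ (u_nonneg _) (h _ hi) M
    · rw [one_mul]
      exact pow_le_pow_left₀ (u_nonneg _) (u_le _) M
  refine h1.trans (le_of_eq ?_)
  rw [prod_mul_distrib, prod_const, card_univ, Fintype.card_fin, prod_ite_eq' univ i,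
    if_pos (mem_univ i)]

/-- the choice of `M` -/
theorem exists_M (d : ℕ) {ρ : ℝ} (h0 : 0 ≤ ρ) (h1 : ρ < 1) :
    ∃ M : ℕ, (2 * (M : ℝ) + 1) ^ d * ρ ^ M < 1 := by
  have h2 := tendsto_pow_const_mul_const_pow_of_abs_lt_one d (r := ρ) (by rwa [abs_of_nonneg h0])
  have h3 : (0 : ℝ) < 1 / 3 ^ d := by positivity
  obtain ⟨M, hM1, hM2⟩ := ((h2.eventually (gt_mem_nhds h3)).and (eventually_ge_atTop 1)).exists
  refine ⟨M, ?_⟩
  have hM : (1 : ℝ) ≤ M := by exact_mod_cast hM2
  have h4 : (2 * (M : ℝ) + 1) ^ d ≤ (3 * M) ^ d :=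
    pow_le_pow_left₀ (by positivity) (by linarith) d
  have h5 : (2 * (M : ℝ) + 1) ^ d * ρ ^ M ≤ (3 * M) ^ d * ρ ^ M :=
    mul_le_mul_of_nonneg_right h4 (pow_nonneg h0 M)
  refine lt_of_le_of_lt h5 ?_
  rw [mul_pow, mul_assoc]
  rw [lt_div_iff₀ (by positivity)] at hM1
  rw [mul_comm]
  exact hM1

end TCL

open TCL in
theorem tc : TC := by
  intro d U hU h0
  -- a box in `U`
  obtain ⟨η, hη, hbox⟩ : ∃ η : ℝ, 0 < η ∧ ∀ y : T d, (∀ i, ‖y i‖ < η) → y ∈ U := by
    obtain ⟨η, hη, hb⟩ := Metric.isOpen_iff.mp hU 0 h0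
    refine ⟨η, hη, fun y hy => hb ?_⟩
    rw [Metric.mem_ball, dist_pi_lt_iff hη]
    intro i
    rw [Pi.zero_apply, dist_zero_right]
    exact hy i
  obtain ⟨ρ, hρ0, hρ1, hgap⟩ := u_gap hη
  obtain ⟨M, hM⟩ := exists_M d hρ0 hρ1
  refine ⟨M, fun H hH x hx => ?_⟩
  obtain ⟨h, hh, hle⟩ := avg M H hH x hx
  refine ⟨h, hh, ?_⟩
  by_contra hn
  have hi : ∃ i, η ≤ ‖(h - x) i‖ := by
    by_contra hcon
    push Not at hcon
    exact hn (hbox _ hcon)
  obtain ⟨i, hi⟩ := hi
  have h1 := hle.trans (Fr_le M hρ0 hgap (h - x) i hi)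
  have h2 : ((4 : ℝ) ^ M) ≤ (2 * (M : ℝ) + 1) * (Nat.centralBinom M : ℝ) := by
    have := Nat.four_pow_le_two_mul_add_one_mul_central_binom M
    have h3 : ((4 ^ M : ℕ) : ℝ) ≤ (((2 * M + 1) * (2 * M).choose M : ℕ) : ℝ) := by
      exact_mod_cast this
    rw [Nat.centralBinom_eq_two_mul_choose]
    push_cast at h3
    exact h3
  have h3 : ((4 : ℝ) ^ M) ^ d ≤ (2 * (M : ℝ) + 1) ^ d * (Nat.centralBinom M : ℝ) ^ d := by
    rw [← mul_pow]
    exact pow_le_pow_left₀ (by positivity) h2 d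
  have h4 : ((4 : ℝ) ^ M) ^ d ≤ (2 * (M : ℝ) + 1) ^ d * (ρ ^ M * (4 ^ M) ^ d) :=
    h3.trans (mul_le_mul_of_nonneg_left h1 (by positivity))
  have h5 : (0 : ℝ) < ((4 : ℝ) ^ M) ^ d := by positivity
  have h6 : (2 * (M : ℝ) + 1) ^ d * (ρ ^ M * (4 ^ M) ^ d) =
      ((2 * (M : ℝ) + 1) ^ d * ρ ^ M) * ((4 : ℝ) ^ M) ^ d := by ring
  rw [h6] at h4
  have h7 : ((2 * (M : ℝ) + 1) ^ d * ρ ^ M) * ((4 : ℝ) ^ M) ^ d < 1 * ((4 : ℝ) ^ M) ^ d :=
    mul_lt_mul_of_pos_right hM h5
  linarith

end Pool.Agent.H98.TO
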