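import Pool.Agent.H98.TO.Stmt

/-!
# Short vectors orthogonal to a subspace of a vector space over a large prime field
-/

set_option autoImplicit false

namespace Pool.Agent.H98.TO

namespace TDL

open Matrix

/-- the Gram matrix -/
def gr {r d : ℕ} (k : Fin r → Fin d → ℤ) : Matrix (Fin r) (Fin r) ℤ := fun a b => k a ⬝ᵥ k b

theorem gr_det_ne {r d : ℕ} (k : Fin r → Fin d → ℤ) (hk : LinearIndependent ℤ k) :
    (gr k).det ≠ 0 := by
  intro h0
  obtain ⟨c, hc, h1⟩ := Matrix.exists_mulVec_eq_zero_iff.2 h0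
  have h2 : (∑ a, c a • k a) ⬝ᵥ (∑ a, c a • k a) = 0 := by
    rw [sum_dotProduct]
    refine Finset.sum_eq_zero fun a _ => ?_
    rw [smul_dotProduct, dotProduct_sum]
    have h3 : ∑ b, k a ⬝ᵥ c b • k b = (gr k *ᵥ c) a := by
      unfold Matrix.mulVec
      rw [dotProduct]
      refine Finset.sum_congr rfl fun b _ => ?_
      rw [dotProduct_smul, smul_eq_mul, mul_comm]
      rfl
    rw [h3, h1, Pi.zero_apply, smul_zero]
  rw [dotProduct_self_eq_zero] at h2
  rw [Fintype.linearIndependent_iff] at hk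
  exact hc (funext fun a => hk c h2 a)

theorem gr_det_le {r d M : ℕ} (k : Fin r → Fin d → ℤ) (hM : ∀ j i, |k j i| ≤ M) :
    |(gr k).det| ≤ (r.factorial * (d * M ^ 2) ^ r : ℕ) := by
  have h1 : ∀ i j, AbsoluteValue.abs (gr k i j) ≤ ((d * M ^ 2 : ℕ) : ℤ) := by
    intro a b
    rw [AbsoluteValue.abs_apply]
    unfold gr
    rw [dotProduct]
    refine (Finset.abs_sum_le_sum_abs _ _).trans ?_
    calc ∑ i, |k a i * k b i| ≤ ∑ _i : Fin d, (M : ℤ) ^ 2 := by
          refine Finset.sum_le_sum fun i _ => ?_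
          rw [abs_mul, sq]
          exact mul_le_mul (hM a i) (hM b i) (abs_nonneg _) (Int.natCast_nonneg M)
      _ = ((d * M ^ 2 : ℕ) : ℤ) := by
          rw [Finset.sum_const, Finset.card_univ, Fintype.card_fin]
          push_cast
          rw [nsmul_eq_mul]
  have h2 := Matrix.det_le h1
  rw [AbsoluteValue.abs_apply, Fintype.card_fin] at h2
  refine h2.trans (le_of_eq ?_)
  push_cast
  rw [nsmul_eq_mul]

theorem dep {d q D : ℕ} [Fact q.Prime] (V : Submodule (ZMod q) (Fin d → ZMod q))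
    (hV : d ≤ Module.finrank (ZMod q) V + D) (u : Fin (D + 1) → Fin d → ZMod q)
    (hu : ∀ j, ∀ v ∈ V, u j ⬝ᵥ v = 0) : ¬ LinearIndependent (ZMod q) u := by
  intro hli
  have h1 : LinearIndependent (ZMod q) (fun j => dotProductEquiv (ZMod q) (Fin d) (u j)) :=
    hli.map' _ (dotProductEquiv (ZMod q) (Fin d)).ker
  have h2 : ∀ j, dotProductEquiv (ZMod q) (Fin d) (u j) ∈ V.dualAnnihilator := by
    intro j
    rw [Submodule.mem_dualAnnihilator]
    intro v hv
    exact hu j v hv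
  have h3 : LinearIndependent (ZMod q)
      (fun j => (⟨dotProductEquiv (ZMod q) (Fin d) (u j), h2 j⟩ : V.dualAnnihilator)) :=
    LinearIndependent.of_comp V.dualAnnihilator.subtype h1
  have h4 := h3.fintype_card_le_finrank
  rw [Fintype.card_fin] at h4
  have h5 := Subspace.finrank_add_finrank_dualAnnihilator_eq V
  rw [Module.finrank_fin_fun] at h5
  omega

theorem gr_det_mod {d q D : ℕ} [Fact q.Prime] (V : Submodule (ZMod q) (Fin d → ZMod q))
    (hV : d ≤ Module.finrank (ZMod q) V + D) (k : Fin (D + 1) → Fin d → ℤ)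
    (hk : ∀ j, ∀ v ∈ V, pq (k j) v = 0) : (((gr k).det : ℤ) : ZMod q) = 0 := by
  obtain ⟨u, hu⟩ : ∃ u : Fin (D + 1) → Fin d → ZMod q, u = fun j i => ((k j i : ℤ) : ZMod q) :=
    ⟨_, rfl⟩
  have h1 := dep V hV u (fun j v hv => by rw [hu]; exact hk j v hv)
  rw [Fintype.not_linearIndependent_iff] at h1
  obtain ⟨c, hc, j0, hj0⟩ := h1
  have h2 : (((gr k).det : ℤ) : ZMod q) = ((gr k).map (Int.castRingHom (ZMod q))).det := by
    rw [← RingHom.mapMatrix_apply, ← RingHom.map_det]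
    rfl
  rw [h2]
  refine Matrix.exists_mulVec_eq_zero_iff.1 ⟨c, fun h => hj0 (by rw [h]; rfl), ?_⟩
  funext a
  have h3 : ((gr k).map (Int.castRingHom (ZMod q)) *ᵥ c) a = u a ⬝ᵥ (∑ b, c b • u b) := by
    rw [dotProduct_sum]
    unfold Matrix.mulVec
    rw [dotProduct]
    refine Finset.sum_congr rfl fun b _ => ?_
    rw [dotProduct_smul, smul_eq_mul, mul_comm]
    congr 1
    rw [Matrix.map_apply, hu]
    unfold gr
    rw [dotProduct, map_sum, dotProduct]
    refine Finset.sum_congr rfl fun i _ => ?_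
    rw [map_mul]
    rfl
  rw [h3, hc, dotProduct_zero]
  rfl

end TDL

open TDL in
/-- **TD.** -/
theorem td : TD := by
  intro d M D
  refine ⟨(D + 1).factorial * (d * M ^ 2) ^ (D + 1) + 1, ?_⟩
  intro q _ hq V hV r k hli hM hk
  by_contra hr
  push Not at hr
  obtain ⟨k', hk'⟩ : ∃ k' : Fin (D + 1) → Fin d → ℤ, k' = fun j => k (Fin.castLE hr j) :=
    ⟨_, rfl⟩
  have hli' : LinearIndependent ℤ k' := by
    rw [hk']
    exact hli.comp _ (Fin.castLE_injective hr)
  have h1 := gr_det_ne k' hli'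
  have h2 := gr_det_le (M := M) k' (fun j i => by rw [hk']; exact hM _ i)
  have h3 := gr_det_mod V hV k' (fun j v hv => by rw [hk']; exact hk _ v hv)
  rw [ZMod.intCast_zmod_eq_zero_iff_dvd] at h3
  have h4 := Int.le_of_dvd (abs_pos.2 h1) ((dvd_abs _ _).2 h3)
  have h5 : (q : ℤ) ≤ (((D + 1).factorial * (d * M ^ 2) ^ (D + 1) : ℕ) : ℤ) := h4.trans h2
  have h6 : q ≤ (D + 1).factorial * (d * M ^ 2) ^ (D + 1) := by exact_mod_cast h5
  omega

end Pool.Agent.H98.TO
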