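import Pool.Agent.H98.TO.Stmt

/-! Subtori in sumsets, part TE: the subtorus killed by a set of integer vectors (helper539). -/

set_option autoImplicit false

namespace Pool.Agent.H98.TO

open Finset

namespace TEL

/-- the integer pairing -/
def dotl {d : ℕ} (k : Fin d → ℤ) : (Fin d → ℤ) →ₗ[ℤ] ℤ where
  toFun v := ∑ i, k i * v i
  map_add' v w := by
    rw [← Finset.sum_add_distrib]
    exact Finset.sum_congr rfl fun i _ => by rw [Pi.add_apply, mul_add]
  map_smul' c v := by
    rw [RingHom.id_apply, smul_eq_mul, Finset.mul_sum]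
    exact Finset.sum_congr rfl fun i _ => by
      rw [Pi.smul_apply, smul_eq_mul]
      ring

theorem dotl_apply {d : ℕ} (k v : Fin d → ℤ) : dotl k v = ∑ i, k i * v i := rfl

/-- the pairings with a family of vectors -/
def fam {d r : ℕ} (k : Fin r → Fin d → ℤ) : (Fin d → ℤ) →ₗ[ℤ] (Fin r → ℤ) :=
  LinearMap.pi fun j => dotl (k j)

theorem exists_max {d D : ℕ} (L : Set (Fin d → ℤ))
    (h : ∀ (r : ℕ) (k : Fin r → Fin d → ℤ), LinearIndependent ℤ k → (∀ j, k j ∈ L) → r ≤ D) :
    ∃ (r : ℕ) (k : Fin r → Fin d → ℤ), r ≤ D ∧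
      ∀ v : Fin d → ℤ, (∀ j, dotl (k j) v = 0) → ∀ l ∈ L, dotl l v = 0 := by
  classical
  have hex : ∃ r : ℕ, (∃ k : Fin r → Fin d → ℤ, LinearIndependent ℤ k ∧ ∀ j, k j ∈ L) ∧
      ¬ ∃ k : Fin (r + 1) → Fin d → ℤ, LinearIndependent ℤ k ∧ ∀ j, k j ∈ L := by
    by_contra hcon
    push Not at hcon
    have h1 : ∀ r : ℕ, ∃ k : Fin r → Fin d → ℤ, LinearIndependent ℤ k ∧ ∀ j, k j ∈ L := by
      intro r
      induction r with
      | zero => exact ⟨fun i => i.elim0, linearIndependent_empty_type, fun j => j.elim0⟩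
      | succ r ih => exact hcon r ih
    obtain ⟨k, hk1, hk2⟩ := h1 (D + 1)
    have := h (D + 1) k hk1 hk2
    omega
  obtain ⟨r, ⟨k, hk1, hk2⟩, hno⟩ := hex
  refine ⟨r, k, h r k hk1 hk2, fun v hv l hl => ?_⟩
  have h2 : ¬ LinearIndependent ℤ (Fin.snoc k l : Fin (r + 1) → Fin d → ℤ) := by
    intro h3
    refine hno ⟨_, h3, fun j => ?_⟩
    refine Fin.lastCases ?_ (fun i => ?_) j
    · rw [Fin.snoc_last]
      exact hl
    · rw [Fin.snoc_castSucc]
      exact hk2 i
  rw [Fintype.not_linearIndependent_iff] at h2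
  obtain ⟨g, hg, i, hi⟩ := h2
  rw [Fin.sum_univ_castSucc] at hg
  simp only [Fin.snoc_castSucc, Fin.snoc_last] at hg
  have h4 : g (Fin.last r) ≠ 0 := by
    intro h5
    rw [h5, zero_smul, add_zero] at hg
    have h6 := Fintype.linearIndependent_iff.1 hk1 _ hg
    apply hi
    revert i
    intro i
    refine Fin.lastCases ?_ (fun i => ?_) i
    · intro _
      exact h5
    · intro _
      exact h6 i
  have h7 : ∑ i, (∑ j : Fin r, g j.castSucc * k j i + g (Fin.last r) * l i) * v i = 0 := by
    refine Finset.sum_eq_zero fun i _ => ?_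
    have h8 := congrFun hg i
    rw [Pi.add_apply, Finset.sum_apply, Pi.zero_apply] at h8
    simp only [Pi.smul_apply, smul_eq_mul] at h8
    rw [h8, zero_mul]
  have h9 : ∑ i, (∑ j : Fin r, g j.castSucc * k j i + g (Fin.last r) * l i) * v i =
      ∑ j : Fin r, g j.castSucc * dotl (k j) v + g (Fin.last r) * dotl l v := by
    simp only [dotl_apply, Finset.mul_sum]
    rw [Finset.sum_comm, ← Finset.sum_add_distrib]
    refine Finset.sum_congr rfl fun i _ => ?_
    rw [add_mul, Finset.sum_mul]
    congr 1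
    · exact Finset.sum_congr rfl fun j _ => by ring
    · ring
  rw [h9] at h7
  simp only [hv, mul_zero, Finset.sum_const_zero, zero_add] at h7
  exact (mul_eq_zero.1 h7).resolve_left h4

/-- the parametrization -/
noncomputable def phi {d m : ℕ} (w : Fin m → Fin d → ℤ) : T m →+ T d where
  toFun t := fun i => ∑ j, w j i • t j
  map_zero' := by
    funext i
    simp
  map_add' s t := by
    funext i
    simp only [Pi.add_apply, smul_add, Finset.sum_add_distrib]

theorem phi_apply {d m : ℕ} (w : Fin m → Fin d → ℤ) (t : T m) (i : Fin d) :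
    phi w t i = ∑ j, w j i • t j := rfl

theorem pair {d m : ℕ} (w : Fin m → Fin d → ℤ) (c : Fin d → ℤ) (t : T m) :
    ∑ i, c i • phi w t i = ∑ j, dotl c (w j) • t j := by
  simp only [phi_apply, Finset.smul_sum, smul_smul, dotl_apply, Finset.sum_smul]
  rw [Finset.sum_comm]

theorem phi_cont {d m : ℕ} (w : Fin m → Fin d → ℤ) : Continuous (phi w) := by
  refine continuous_pi fun i => ?_
  show Continuous fun t : T m => ∑ j, w j i • t j
  refine continuous_finsetSum _ fun j _ => ?_
  exact (continuous_apply j).zsmul _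

end TEL

open TEL

theorem te : TE := by
  intro d D L h
  obtain ⟨r, k, hr, hk⟩ := exists_max L h
  set f := fam k with hf
  set N := LinearMap.ker f with hN
  -- the splitting
  obtain ⟨s, hs⟩ := Module.projective_lifting_property f.rangeRestrict
    (LinearMap.id : LinearMap.range f →ₗ[ℤ] LinearMap.range f) f.surjective_rangeRestrict
  have hs' : ∀ y : LinearMap.range f, f.rangeRestrict (s y) = y := fun y =>
    LinearMap.congr_fun hs y
  have hmem : ∀ v : Fin d → ℤ, v - s (f.rangeRestrict v) ∈ N := by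
    intro v
    rw [hN, LinearMap.mem_ker, map_sub, sub_eq_zero]
    have := congrArg Subtype.val (hs' (f.rangeRestrict v))
    simpa using this.symm
  set π : (Fin d → ℤ) →ₗ[ℤ] N :=
    LinearMap.codRestrict N (LinearMap.id - s.comp f.rangeRestrict) hmem with hπ
  have hπN : ∀ v : N, π v.1 = v := by
    intro v
    have h1 : f.rangeRestrict v.1 = 0 := by
      apply Subtype.ext
      simp
    apply Subtype.ext
    show (v.1 - s (f.rangeRestrict v.1)) = v.1
    rw [h1, map_zero, sub_zero]
  -- the basis
  set m := Module.finrank ℤ N with hm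
  set b : Module.Basis (Fin m) ℤ N := Module.finBasis ℤ N with hb
  set w : Fin m → Fin d → ℤ := fun j => (b j).1 with hw
  -- the left inverse
  set P : Fin m → (Fin d → ℤ) →ₗ[ℤ] ℤ := fun j => (b.coord j).comp π with hP
  have hPw : ∀ j l, P j (w l) = if l = j then 1 else 0 := by
    intro j l
    show b.coord j (π (b l).1) = _
    rw [hπN, Module.Basis.coord_apply, Module.Basis.repr_self, Finsupp.single_apply]
  have hPd : ∀ j v, P j v = dotl (fun i => P j (Pi.single i 1)) v := by
    intro j v
    rw [dotl_apply]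
    conv_lhs => rw [pi_eq_sum_univ' v]
    rw [map_sum]
    refine Finset.sum_congr rfl fun i _ => ?_
    rw [map_smul, smul_eq_mul, mul_comm]
  refine ⟨m, phi w, phi_cont w, ?_, ?_, ?_⟩
  · rw [injective_iff_map_eq_zero]
    intro t ht
    funext j
    have h1 := pair w (fun i => P j (Pi.single i 1)) t
    rw [ht] at h1
    simp only [Pi.zero_apply, smul_zero, Finset.sum_const_zero] at h1
    rw [Finset.sum_congr rfl (fun l _ => by rw [← hPd, hPw])] at h1
    simp only [ite_smul, one_smul, zero_smul, Finset.sum_ite_eq', Finset.mem_univ, if_true] at h1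
    exact h1.symm
  · have h1 := Submodule.finrank_quotient_add_finrank N
    have h4 : Module.finrank ℤ ((Fin d → ℤ) ⧸ N) = Module.finrank ℤ (LinearMap.range f) :=
      f.quotKerEquivRange.finrank_eq
    have h2 : Module.finrank ℤ (LinearMap.range f) ≤ r := by
      have := Submodule.finrank_le (LinearMap.range f)
      simpa using this
    have h3 : Module.finrank ℤ (Fin d → ℤ) = d := by simp
    omega
  · intro l hl t
    show ∑ i, l i • phi w t i = 0
    rw [pair]
    refine Finset.sum_eq_zero fun j _ => ?_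
    have h1 : dotl l (w j) = 0 := by
      refine hk (w j) (fun i => ?_) l hl
      have h2 : f (w j) = 0 := (b j).2
      exact congrFun h2 i
    rw [h1, zero_smul]

end Pool.Agent.H98.TO
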