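import Mathlib

/-!
# Subtori in sumsets: statements
-/

set_option autoImplicit false

namespace Pool.Agent.H98.TO

open Finset
open scoped Pointwise

/-- the torus -/
abbrev T (d : ℕ) : Type := Fin d → UnitAddCircle

/-- the inclusion of `(ℤ/q)^d` in the torus -/
noncomputable def io (d q : ℕ) [NeZero q] (g : Fin d → ZMod q) : T d :=
  fun i => ZMod.toAddCircle (g i)

/-- the pairing of `ℤ^d` with the torus -/
noncomputable def pt {d : ℕ} (k : Fin d → ℤ) (x : T d) : UnitAddCircle := ∑ i, k i • x i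

/-- the pairing of `ℤ^d` with `(ℤ/q)^d` -/
def pq {d q : ℕ} (k : Fin d → ℤ) (g : Fin d → ZMod q) : ZMod q := ∑ i, (k i : ZMod q) * g i

/-- a translate of a set of measure `α` has density at least `α` on the points of order `q` -/
def TA : Prop := ∀ (d q : ℕ) [NeZero q] (A : Set (T d)), MeasurableSet A →
  ∃ x : T d, (MeasureTheory.volume A).toReal * (q : ℝ) ^ d ≤
    ({g : Fin d → ZMod q | x + io d q g ∈ A}.ncard : ℝ)

/-- for every neighbourhood `U` of `0` there is `M` such that for every finite subgroup `H`, every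
point killed by the vectors of `[-M, M]^d` that kill `H` is in `H - U` -/
def TC : Prop := ∀ (d : ℕ) (U : Set (T d)), IsOpen U → (0 : T d) ∈ U → ∃ M : ℕ,
  ∀ (H : AddSubgroup (T d)), (H : Set (T d)).Finite → ∀ x : T d,
    (∀ k : Fin d → ℤ, (∀ i, |k i| ≤ M) → (∀ h ∈ H, pt k h = 0) → pt k x = 0) →
    ∃ h ∈ H, h - x ∈ U

/-- short vectors orthogonal to a subspace of codimension `D` over a large prime field span a space
of dimension at most `D` -/
def TD : Prop := ∀ (d M D : ℕ), ∃ Q : ℕ, ∀ (q : ℕ) [Fact q.Prime], Q ≤ q →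
  ∀ V : Submodule (ZMod q) (Fin d → ZMod q), d ≤ Module.finrank (ZMod q) V + D →
    ∀ (r : ℕ) (k : Fin r → Fin d → ℤ), LinearIndependent ℤ k → (∀ j i, |k j i| ≤ M) →
      (∀ j, ∀ v ∈ V, pq (k j) v = 0) → r ≤ D

/-- the subtorus killed by a set of integer vectors -/
def TE : Prop := ∀ (d D : ℕ) (L : Set (Fin d → ℤ)),
  (∀ (r : ℕ) (k : Fin r → Fin d → ℤ), LinearIndependent ℤ k → (∀ j, k j ∈ L) → r ≤ D) →
  ∃ (m : ℕ) (φ : T m →+ T d), Continuous φ ∧ Function.Injective φ ∧ d ≤ m + D ∧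
    ∀ k ∈ L, ∀ t : T m, pt k (φ t) = 0

end Pool.Agent.H98.TO
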